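import Pool.Agent.H494R3.NK.Final

/-!
# A monoid `V(R)`, `R` von Neumann regular, that is not `V(A)` for `A` of real rank zero

The ring `R` consists of the `ℚ`-linear endomorphisms of `ℚ⟦X⟧` that are `ℚ⟦X⟧`-linear on some
ideal `X ^ N ℚ⟦X⟧`. Its monoid `V(R)` is generated by `a` (rank one) and `u` (the unit) with
`u + a = u`. In a C*-algebra of real rank zero the corner of `u` consists of norm limits of scalars
plus elements of finite rank, so that an injective isometry of index `-1` cannot exist there.
-/

universe u

open Pool.Agent.H494R3.NK in
/-- There is a von Neumann regular ring `R` (with unit) such that for no C*-algebra `A` of real rank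
zero (unital or not) the monoids `V(R)` and `V(A)` are isomorphic. -/
theorem Pool.Agent.Results.MP_53c861_al.RegNotInRR0.result :
    ∃ (R : Type) (_ : Ring R), (∀ x : R, ∃ y : R, x * y * x = x) ∧
      ∀ (A : Type u) [NonUnitalCStarAlgebra A], RealRankZero A → ¬ Nonempty (VV R ≃+ VV A) :=
  main
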